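import Pool.Agent.Run7.h426.DOM.Main
import Pool.Agent.Run7.h78.DOM.CM2
import Pool.Agent.Run7.h429.DOM.L6B
import Pool.Agent.Run7.h429.DOM.L6C
import Pool.Agent.Run7.h333.DOM.L6A
import Pool.Agent.Run7.h683.DOM.L4
import Pool.Agent.Run7.h683.DOM.L5
import Pool.Agent.Run7.h557.DOM.RED
import Pool.Agent.Run7.h270.DOM.L2
import Pool.Agent.Run7.h270.DOM.P
import Pool.Agent.Run7.h959.DOM.DEX

/-!
# MP_0828a1_co: the surfaces `Γ_4` and `Γ_5`, and the flat part of `Γ_k`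

`UHG k`: `k`-uniform hypergraphs on `Fin n`, `n > 0`, without isolated vertices; `dom H` the
domination number; `ratios k x y` the set of all `dom H / (x n + y m)`; `InD k x y`: `(x, y) ∈ D_k`.
-/

set_option autoImplicit false

namespace Pool.Agent.Results.MP_0828a1_co.FourAndFiveUniform

open Run7.h426.DOM

/-- `z_4 = 1 / (4x + y)` and `z_5 = max (1 / (5x + y)) (2 / (9x + 3y))` on all of `D_4`, `D_5` (the
suprema are attained); for every `k ≥ 4` the equality `z_k(x,y) = 1 / (kx + y)` holds exactly for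
`x ≤ 0` or `y ≥ ⌊(k-3)/2⌋ x`. -/
theorem result :
    (∀ x y : ℝ, InD 4 x y → IsGreatest (ratios 4 x y) (1 / (4 * x + y))) ∧
    (∀ x y : ℝ, InD 5 x y →
      IsGreatest (ratios 5 x y) (max (1 / (5 * x + y)) (2 / (9 * x + 3 * y)))) ∧
    (∀ k : ℕ, 4 ≤ k → ∀ x y : ℝ, InD k x y →
      (IsLUB (ratios k x y) (1 / (k * x + y)) ↔ (x ≤ 0 ∨ ((k - 3) / 2 : ℕ) * x ≤ y))) :=
  main Pool.Agent.Run7.h270.DOM.t_L2 Run7.h683.DOM.t_L4 Run7.h683.DOM.t_L5 t_L6A t_L6B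
    (t_L6C Run7.h78.DOM.t_CUB) Pool.Agent.Run7.h270.DOMP.t_P
    (Run7.h78.DOM.t_CM Run7.h78.DOM.t_CM2) Run7.h557.DOM.t_RED Run7.h959.DOM.t_DEX

end Pool.Agent.Results.MP_0828a1_co.FourAndFiveUniform
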